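import Pool.Agent.V11230.ConnRed

/-!
# Computing the second coordinate of a connectivity pair is NP-hard

For `k ≤ κ(v, w)` there is exactly one connectivity pair `(k, l)`, and `l` is the least number of
edges of a disconnecting pair with at most `k` vertices.  The reduction is from CLIQUE.  Let `H` be
a graph with at least `k choose 2` edges, `k ≥ 4`.  Join `v` to a new vertex for each edge of `H`,
join this vertex to the two ends of the edge, and for each edge `e` of `H` and each end `i` of `e`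
join `i` to `w` by a path of length two of its own.  Deleting the vertices of a clique of size `k`
and the edges from `v` to the vertices of the other edges of `H` disconnects `v` from `w`.
Conversely the vertices of a disconnecting pair destroy all paths for at most `k choose 2` edges of
`H`, with equality only if they form a clique, and for each other edge of `H` the pair must contain
an edge of its own.
-/

namespace Pool.Agent.NPC.V11230.CP

open Pool.Agent.NPC Pool.Agent.H622R2 Pool.Agent.NPC.H634R2 Pool.Agent.H692R2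

/-- An instance: a graph with vertex set `{0, …, n - 1}` (encoded by its adjacency matrix), the two
vertices `v`, `w`, and the number `k`. -/
abbrev Inst : Type := FinGraph × ℕ × ℕ × ℕ

/-- The instances allowed: `v` and `w` are two different non-adjacent vertices of the graph, and
`k ≤ κ(v, w)`. -/
def Valid (I : Inst) : Prop :=
  ∃ (hv : I.2.1 < I.1.n) (hw : I.2.2.1 < I.1.n),
    LeKappa I.1.graph ⟨I.2.1, hv⟩ ⟨I.2.2.1, hw⟩ I.2.2.2

/-- `(k, l)` is a `v`-`w` connectivity pair. -/
def IsSecond (I : Inst) (l : ℕ) : Prop :=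
  ∃ (hv : I.2.1 < I.1.n) (hw : I.2.2.1 < I.1.n),
    ConnectivityPair I.1.graph ⟨I.2.1, hv⟩ ⟨I.2.2.1, hw⟩ I.2.2.2 l

theorem existsUnique_isSecond (I : Inst) (h : Valid I) : ∃! l, IsSecond I l := by
  obtain ⟨hv, hw, h⟩ := h
  obtain ⟨l, hl, hl2⟩ := existsUnique_connectivityPair h
  exact ⟨l, ⟨hv, hw, hl⟩, fun l' ⟨_, _, h'⟩ => hl2 l' h'⟩

/-- The adjacency matrix of the graph of the reduction. -/
def mx (V : List ℕ) (E : List (ℕ × ℕ)) : List (List Bool) := mat (labs V E) adjL

/-- The graph of the reduction, on `{0, …, n - 1}`. -/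
noncomputable def fg (V : List ℕ) (E : List (ℕ × ℕ)) : FinGraph :=
  ⟨(mx V E).length, matGraph (mx V E)⟩

/-- The path with three vertices and its two ends, with `k = 0` (so that `l = 1`), and `m = 0`. -/
def noM : List (List Bool) := [[false, true, false], [true, false, true], [false, true, false]]

/-- The reduction. -/
noncomputable def red (I : (List ℕ × List (ℕ × ℕ)) × ℕ) : Inst × ℕ :=
  if I.1.2.length < I.2 * (I.2 - 1) / 2 then ((⟨noM.length, matGraph noM⟩, 0, 2, 0), 0)
  else ((fg I.1.1 I.1.2, 0, 1, I.2), I.1.2.length - I.2 * (I.2 - 1) / 2)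

theorem no_pair : ¬ Q (matGraph noM) ⟨0, by decide⟩ ⟨2, by decide⟩ 0 0 := by
  rintro ⟨S, T, ⟨hv, hw, _, hr⟩, h1, h2⟩
  have hS : S = ∅ := Finset.card_eq_zero.1 (Nat.le_zero.1 h1)
  have hT : T = ∅ := Finset.card_eq_zero.1 (Nat.le_zero.1 h2)
  subst hS hT
  apply hr
  have a1 : ((((matGraph noM).deleteEdges ((∅ : Finset (Sym2 (Fin noM.length))) : Set (Sym2 (Fin noM.length)))).induce
      {x | x ∉ (∅ : Finset (Fin noM.length))})).Adj ⟨⟨0, by decide⟩, hv⟩ ⟨⟨1, by decide⟩, by simp⟩ := by
    simp only [SimpleGraph.comap_adj, Function.Embedding.subtype_apply,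
      SimpleGraph.deleteEdges_adj, Finset.mem_coe, Finset.notMem_empty, not_false_eq_true, and_true]
    exact ⟨by simp, Or.inl (by decide)⟩
  have a2 : ((((matGraph noM).deleteEdges ((∅ : Finset (Sym2 (Fin noM.length))) : Set (Sym2 (Fin noM.length)))).induce
      {x | x ∉ (∅ : Finset (Fin noM.length))})).Adj ⟨⟨1, by decide⟩, by simp⟩ ⟨⟨2, by decide⟩, hw⟩ := by
    simp only [SimpleGraph.comap_adj, Function.Embedding.subtype_apply,
      SimpleGraph.deleteEdges_adj, Finset.mem_coe, Finset.notMem_empty, not_false_eq_true, and_true]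
    exact ⟨by simp, Or.inl (by decide)⟩
  exact a1.reachable.trans a2.reachable

theorem no_leKappa : LeKappa (matGraph noM) ⟨0, by decide⟩ ⟨2, by decide⟩ 0 := by
  refine ⟨by simp, ?_, fun S _ => Nat.zero_le _⟩
  rintro ⟨_, h | h⟩
  · exact absurd h (by decide)
  · exact absurd h (by decide)

theorem transfer {V : List ℕ} {E : List (ℕ × ℕ)} (h : IsGraph V E) {k : ℕ} :
    ∃ (hv : 0 < (mx V E).length) (hw : 1 < (mx V E).length),
      (∀ m, Q (Gr V E) (vv V E) (ww V E) k m ↔ Q (matGraph (mx V E)) ⟨0, hv⟩ ⟨1, hw⟩ k m) ∧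
      (LeKappa (Gr V E) (vv V E) (ww V E) k → LeKappa (matGraph (mx V E)) ⟨0, hv⟩ ⟨1, hw⟩ k) := by
  have hlen : (mx V E).length = (labs V E).length := mat_length _ _
  have hv : 0 < (mx V E).length := by rw [hlen]; simp [labs]
  have hw : 1 < (mx V E).length := by rw [hlen]; simp [labs]
  obtain ⟨φ, e1, e2⟩ : ∃ φ : matGraph (mx V E) ≃g Gr V E,
      φ ⟨0, hv⟩ = vv V E ∧ φ ⟨1, hw⟩ = ww V E :=
    ⟨matIso (labs V E) adjL (labs_nodup h), Subtype.ext rfl, Subtype.ext rfl⟩
  refine ⟨hv, hw, fun m => ⟨fun hQ => ?_, fun hQ => ?_⟩, fun hL => ?_⟩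
  · have := hQ.map φ.symm
    rwa [← e1, ← e2, RelIso.symm_apply_apply, RelIso.symm_apply_apply] at this
  · have := hQ.map φ
    rwa [e1, e2] at this
  · have := hL.map φ.symm
    rwa [← e1, ← e2, RelIso.symm_apply_apply, RelIso.symm_apply_apply] at this

/-- The threshold problem for the second coordinate. -/
def SecondLE (I : Inst × ℕ) : Prop := ∃ l ≤ I.2, IsSecond I.1 l

theorem secondLE_iff {I : Inst × ℕ} (hv : I.1.2.1 < I.1.1.n) (hw : I.1.2.2.1 < I.1.1.n)
    (h : LeKappa I.1.1.graph ⟨I.1.2.1, hv⟩ ⟨I.1.2.2.1, hw⟩ I.1.2.2.2) :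
    SecondLE I ↔ Q I.1.1.graph ⟨I.1.2.1, hv⟩ ⟨I.1.2.2.1, hw⟩ I.1.2.2.2 I.2 := by
  constructor
  · rintro ⟨l, hl, _, _, h'⟩
    exact (le_iff_Q h h').1 hl
  · intro hQ
    obtain ⟨l, hl, _⟩ := existsUnique_connectivityPair h
    exact ⟨l, (le_iff_Q h hl).2 hQ, hv, hw, hl⟩

theorem red_spec (I : (List ℕ × List (ℕ × ℕ)) × ℕ) (h : IsGraph I.1.1 I.1.2) (h4 : 4 ≤ I.2) :
    Valid (red I).1 ∧ (CLIQUE I ↔ SecondLE (red I)) := by
  obtain ⟨⟨V, E⟩, k⟩ := I
  simp only at h h4
  have hch : k * (k - 1) / 2 = k.choose 2 := (Nat.choose_two_right k).symm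
  unfold red
  simp only [hch]
  split_ifs with hlt
  · refine ⟨⟨by decide, by decide, no_leKappa⟩, ?_⟩
    rw [secondLE_iff (by decide) (by decide) no_leKappa]
    constructor
    · rintro ⟨_, hc⟩
      exfalso
      obtain ⟨U, _, _, h3⟩ := (hasClique_iff h (by omega)).1 (show HasClique V E k from hc)
      have : inside E U ≤ E.length := List.countP_le_length
      omega
    · intro hQ
      exact absurd hQ no_pair
  · push Not at hlt
    obtain ⟨hv, hw, hQ, hL⟩ := transfer h (k := k)
    have hL' := hL (leKappa h h4 hlt)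
    refine ⟨⟨hv, hw, hL'⟩, ?_⟩
    rw [secondLE_iff (I := ((fg V E, 0, 1, k), E.length - k.choose 2)) hv hw hL']
    have h5 := (correct h h4 hlt).trans (hQ (E.length - k.choose 2))
    exact ⟨fun hh => h5.1 hh.2, fun hh => ⟨h, h5.2 hh⟩⟩

/-! ### Polynomial time -/

theorem poly_labs {α : Type} [TEnc α] {V : α → List ℕ} {E : α → List (ℕ × ℕ)} (hV : Poly V)
    (hE : Poly E) : Poly (fun a => labs (V a) (E a)) := by
  unfold labs
  have hm : ∀ c : ℕ, Poly (fun a => (E a).map (fun e => ((c, e.1, e.2) : Lab))) := fun c =>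
    Poly.map (F := fun _ (e : ℕ × ℕ) => ((c, e.1, e.2) : Lab)) hE
      (Poly.pair (Poly.const _) (Poly.snd Poly.id))
  refine Poly.cons (Poly.const _) (Poly.cons (Poly.const _) (Poly.append ?_
    (Poly.append (hm 3) (Poly.append (hm 4) (hm 5)))))
  exact Poly.map (F := fun _ (i : ℕ) => ((2, i, 0) : Lab)) hV
    (Poly.pair (Poly.const _) (Poly.pair (Poly.snd Poly.id) (Poly.const _)))

theorem poly_adjL {α : Type} [TEnc α] {f g : α → Lab} (hf : Poly f) (hg : Poly g) :
    Poly (fun a => adjL (f a) (g a)) := by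
  unfold adjL
  have f1 := Poly.fst hf
  have f2 := Poly.fst (Poly.snd hf)
  have f3 := Poly.snd (Poly.snd hf)
  have g1 := Poly.fst hg
  have g2 := Poly.fst (Poly.snd hg)
  have g3 := Poly.snd (Poly.snd hg)
  have c : ∀ n : ℕ, Poly (fun _ : α => n) := fun n => Poly.const n
  exact Poly.or (Poly.or (Poly.or (Poly.or
    (Poly.and (Poly.decide_eq f1 (c 0)) (Poly.decide_eq g1 (c 3)))
    (Poly.and (Poly.and (Poly.decide_eq f1 (c 3)) (Poly.decide_eq g1 (c 2)))
      (Poly.or (Poly.decide_eq g2 f2) (Poly.decide_eq g2 f3))))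
    (Poly.and (Poly.and (Poly.decide_eq f1 (c 2)) (Poly.decide_eq g1 (c 4)))
      (Poly.decide_eq f2 g2)))
    (Poly.and (Poly.and (Poly.decide_eq f1 (c 2)) (Poly.decide_eq g1 (c 5)))
      (Poly.decide_eq f2 g3)))
    (Poly.and (Poly.decide_eq g1 (c 1)) (Poly.or (Poly.decide_eq f1 (c 4))
      (Poly.decide_eq f1 (c 5))))

theorem poly_mx {α : Type} [TEnc α] {V : α → List ℕ} {E : α → List (ℕ × ℕ)} (hV : Poly V)
    (hE : Poly E) : Poly (fun a => mx (V a) (E a)) := by
  unfold mx mat
  have hl := poly_labs hV hE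
  refine Poly.map (F := fun a u => (labs (V a) (E a)).map fun v => adjL u v) hl ?_
  refine Poly.map (l := fun p : α × Lab => labs (V p.1) (E p.1))
    (F := fun (p : α × Lab) v => adjL p.2 v) (hl.comp (Poly.fst Poly.id)) ?_
  exact poly_adjL (Poly.snd (Poly.fst Poly.id)) (Poly.snd Poly.id)

theorem poly_entry {α : Type} [TEnc α] {M : α → List (List Bool)} {i j : α → ℕ} (hM : Poly M)
    (hi : Poly i) (hj : Poly j) : Poly (fun a => entry (M a) (i a) (j a)) :=
  Poly.getD (l := fun a => (M a).getD (i a) []) (Poly.getD hM hi (Poly.const _)) hj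
    (Poly.const false)

theorem poly_matGraph {α : Type} [TEnc α] {M : α → List (List Bool)} (hM : Poly M) :
    Poly (fun a => (⟨(M a).length, matGraph (M a)⟩ : FinGraph)) := by
  refine poly_finGraph (N := fun a => (M a).length) (b := fun a i j =>
    !(decide (i = j)) && (entry (M a) i j || entry (M a) j i)) (UPoly.length hM) ?_ ?_
  · have hM' : Poly (fun p : (α × ℕ) × ℕ => M p.1.1) := hM.comp (Poly.fst (Poly.fst Poly.id))
    have hi : Poly (fun p : (α × ℕ) × ℕ => p.1.2) := Poly.snd (Poly.fst Poly.id)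
    have hj : Poly (fun p : (α × ℕ) × ℕ => p.2) := Poly.snd Poly.id
    exact Poly.and (Poly.not (Poly.decide_eq hi hj))
      (Poly.or (poly_entry hM' hi hj) (poly_entry hM' hj hi))
  · intro a i j
    simp only [Bool.and_eq_true, Bool.not_eq_true', decide_eq_false_iff_not, Bool.or_eq_true,
      matGraph, ne_eq, Fin.ext_iff]

theorem poly_red : Poly red := by
  have hV : Poly (fun I : (List ℕ × List (ℕ × ℕ)) × ℕ => I.1.1) := Poly.fst (Poly.fst Poly.id)
  have hE : Poly (fun I : (List ℕ × List (ℕ × ℕ)) × ℕ => I.1.2) := Poly.snd (Poly.fst Poly.id)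
  have hk : Poly (fun I : (List ℕ × List (ℕ × ℕ)) × ℕ => I.2) := Poly.snd Poly.id
  have hc : Poly (fun I : (List ℕ × List (ℕ × ℕ)) × ℕ => I.2 * (I.2 - 1) / 2) :=
    Poly.div (Poly.mul hk (Poly.sub hk (Poly.const 1))) (Poly.const 2)
  have hl : Poly (fun I : (List ℕ × List (ℕ × ℕ)) × ℕ => I.1.2.length) := Poly.length hE
  unfold red
  refine Poly.ite (Poly.decide_lt hl hc) (Poly.const _) ?_
  exact Poly.pair (Poly.pair (poly_matGraph (poly_mx hV hE))
    (Poly.pair (Poly.const 0) (Poly.pair (Poly.const 1) hk))) (Poly.sub hl hc)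

/-! ### Hardness -/

/-- The clique problem is hard, already for instances given by correct descriptions of graphs and
with `k ≥ 4`. -/
theorem hardPr_CLIQUE4 : HardPr (fun I : (List ℕ × List (ℕ × ℕ)) × ℕ =>
    IsGraph I.1.1 I.1.2 ∧ 4 ≤ I.2) CLIQUE := by
  have hpad : Poly (fun φ : List Cl3 => pad ++ (pad ++ φ)) :=
    Poly.append (Poly.const pad) (Poly.append (Poly.const pad) Poly.id)
  refine (hardI_SAT3.toHardPr).trans (f := fun φ => ((gV (pad ++ (pad ++ φ)),
    gE (pad ++ (pad ++ φ))), (pad ++ (pad ++ φ)).length)) ?_ ?_ ?_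
  · exact Poly.pair (Poly.pair (gV_poly.comp hpad) (gE_poly.comp hpad)) (Poly.length hpad)
  · intro φ _
    refine ⟨isGraph_g _, ?_⟩
    simp [pad]
  · intro φ _
    rw [← sat3_pad φ, ← sat3_pad (pad ++ φ)]
    unfold CLIQUE
    simp only
    rw [hasClique_g]
    exact ⟨fun h => ⟨isGraph_g _, h⟩, fun h => h.2⟩

theorem hardPr_second : HardPr (fun I : Inst × ℕ => Valid I.1) SecondLE :=
  hardPr_CLIQUE4.trans poly_red (fun I h => (red_spec I h.1 h.2).1)
    (fun I h => (red_spec I h.1 h.2).2)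

open Classical in
/-- The second coordinate as a function. -/
noncomputable def sec (I : Inst) : ℕ := if h : ∃ l, IsSecond I l then h.choose else 0

theorem sec_spec {I : Inst} (h : Valid I) : IsSecond I (sec I) := by
  have h1 := (existsUnique_isSecond I h).exists
  unfold sec
  rw [dif_pos h1]
  exact h1.choose_spec

theorem second_le {I : Inst × ℕ} (h : Valid I.1) : SecondLE I ↔ sec I.1 ≤ I.2 := by
  have h1 := existsUnique_isSecond I.1 h
  constructor
  · rintro ⟨l, hl, h2⟩
    rwa [h1.unique (sec_spec h) h2]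
  · intro h2
    exact ⟨_, h2, sec_spec h⟩

end Pool.Agent.NPC.V11230.CP

namespace Pool.Agent.Results.MP_cdd24e_lc.SecondCoordinateNPHard

open Pool.Agent.NPC Pool.Agent.NPC.V11230.CP

/-- **Computing the second coordinate of a connectivity pair is `NP`-hard.**
For all instances `I = (G, v, w, k)` with `v`, `w` different non-adjacent vertices and
`k ≤ κ(v, w)` there is exactly one `l` such that `(k, l)` is a `v`-`w` connectivity pair.
Each language in `NP` is reducible in polynomial time to the question whether `l ≤ m` for such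
instances, each language in `coNP` to the question whether `l ≥ m`, and if `l` can be computed in
polynomial time for such instances, then every language in `NP` is in `P`. -/
theorem result :
    (∀ I : Inst, Valid I → ∃! l, IsSecond I l) ∧
    (∀ L : Set (List Bool), InNP L → ∃ f : List Bool → Inst × ℕ,
      PolyTime (fun x => bits (f x)) ∧ (∀ x, Valid (f x).1) ∧
        ∀ x, x ∈ L ↔ ∃ l ≤ (f x).2, IsSecond (f x).1 l) ∧
    (∀ L : Set (List Bool), InCoNP L → ∃ f : List Bool → Inst × ℕ,
      PolyTime (fun x => bits (f x)) ∧ (∀ x, Valid (f x).1) ∧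
        ∀ x, x ∈ L ↔ ∃ l ≥ (f x).2, IsSecond (f x).1 l) ∧
    (∀ A : List Bool → List Bool, PolyTime A →
      (∀ I l, Valid I → IsSecond I l → A (bits I) = bits l) →
        ∀ L : Set (List Bool), InNP L → InP L) := by
  refine ⟨existsUnique_isSecond, fun L hL => ?_, fun L hL => ?_, fun A hA h => ?_⟩
  · obtain ⟨f, hf, hpr, hfL⟩ := hardPr_second L hL
    exact ⟨f, PC.toPolyTime hf, hpr, hfL⟩
  · obtain ⟨f, hf, hpr, hfL⟩ := hardPr_second _ hL
    have hg : Poly (fun p : Inst × ℕ => (p.1, p.2 + 1)) :=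
      Poly.pair (Poly.fst Poly.id) (Poly.succ (Poly.snd Poly.id))
    refine ⟨fun x => ((f x).1, (f x).2 + 1), PC.toPolyTime_bits hg f hf, hpr, fun x => ?_⟩
    have h1 := hfL x
    rw [second_le (hpr x), Set.mem_compl_iff] at h1
    constructor
    · intro hx
      refine ⟨sec (f x).1, ?_, sec_spec (hpr x)⟩
      have : ¬ (sec (f x).1 ≤ (f x).2) := fun hh => h1.2 hh hx
      show (f x).2 + 1 ≤ _
      omega
    · rintro ⟨l, hl, h2⟩
      by_contra hx
      have h3 := h1.1 hx
      have h4 := (existsUnique_isSecond _ (hpr x)).unique h2 (sec_spec (hpr x))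
      have h5 : (f x).2 + 1 ≤ l := hl
      omega
  · refine H598R2.collapse_fun (c := sec) hardPr_second (fun I hI => second_le hI) hA ?_
    intro I hI
    exact h _ _ hI (sec_spec hI)

end Pool.Agent.Results.MP_cdd24e_lc.SecondCoordinateNPHard
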